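import Mathlib
import Pool.Agent.TH923.DM.Basic
import Pool.Agent.TH923.DM.Defs

/-!
# Special places: bound via Cayley-Hamilton and root counting
-/

set_option autoImplicit false

namespace Pool.Agent.TH541.DMSpec

open Polynomial
open Pool.Agent.TH923.DM

universe w

section

variable {L : Type w} [Field L] {u : L → ℤ}

/-- Division step: the quotient by a root has the expected lower bounds. -/
lemma ge_quot (hu : IsOrd u) {F G : L[X]} {y : L} {o c δ : ℝ} (hδ : 0 ≤ δ)
    (hy : GE u y (c + δ)) (hFG : F = (X - C y) * G)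
    (hF : ∀ j : ℕ, GE u (F.coeff j) (o - j * c)) :
    ∀ j : ℕ, GE u (G.coeff j) ((o - c) - j * c) := by
  have key : ∀ n j : ℕ, G.natDegree + 1 ≤ j + n → GE u (G.coeff j) ((o - c) - j * c) := by
    intro n
    induction n with
    | zero =>
      intro j hj
      left
      exact coeff_eq_zero_of_natDegree_lt (by omega)
    | succ n ih =>
      intro j hj
      have h1 := ih (j + 1) (by omega)
      have h2 : G.coeff j = F.coeff (j + 1) + y * G.coeff (j + 1) := by
        rw [hFG, sub_mul, coeff_sub, coeff_X_mul, coeff_C_mul]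
        ring
      rw [h2]
      refine GE.add hu ?_ ?_
      · refine (hF (j + 1)).mono ?_
        push_cast
        linarith
      · refine (hy.mul hu h1).mono ?_
        push_cast
        linarith
  intro j
  exact key (G.natDegree + 1) j (by omega)

/-- A polynomial with many small roots has a small constant coefficient. -/
lemma ge_roots (hu : IsOrd u) {c δ : ℝ} (hδ : 0 ≤ δ) : ∀ (n : ℕ) (R : Finset L), R.card = n →
    ∀ (F : L[X]) (o : ℝ), (∀ j : ℕ, GE u (F.coeff j) (o - j * c)) →
    (∀ y ∈ R, GE u y (c + δ) ∧ F.IsRoot y) → GE u (F.coeff 0) (o + n * δ) := by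
  classical
  intro n
  induction n with
  | zero =>
    intro R _ F o hF _
    refine (hF 0).mono ?_
    push_cast
    linarith
  | succ n ih =>
    intro R hR F o hF hroot
    have hne : R.Nonempty := by
      rw [← Finset.card_pos]; omega
    obtain ⟨y, hy⟩ := hne
    obtain ⟨G, hG⟩ := dvd_iff_isRoot.2 (hroot y hy).2
    have h1 := ge_quot hu hδ (hroot y hy).1 hG hF
    have h2 := ih (R.erase y) (by rw [Finset.card_erase_of_mem hy, hR]; rfl) G (o - c) h1 (by
      intro z hz
      have hz' := Finset.mem_erase.1 hz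
      refine ⟨(hroot z hz'.2).1, ?_⟩
      have h3 := (hroot z hz'.2).2
      rw [hG, IsRoot.def, eval_mul, eval_sub, eval_X, eval_C] at h3
      rcases mul_eq_zero.1 h3 with h | h
      · exact absurd (sub_eq_zero.1 h) hz'.1
      · exact h)
    have h3 : F.coeff 0 = - (y * G.coeff 0) := by
      rw [hG, sub_mul, coeff_sub, coeff_X_mul_zero, coeff_C_mul]
      ring
    rw [h3]
    refine ((((hroot y hy).1.mul hu h2)).neg hu).mono ?_
    push_cast
    linarith

end

section

variable {L : Type w} [Field L] {u : L → ℤ} (p : ℕ) [Fact p.Prime] [CharP L p]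

omit [Fact p.Prime] [CharP L p] in
lemma ev_eq_of_le (f : ℕ → L) {m m' : ℕ} (h : m ≤ m') (hf : ∀ i, m < i → f i = 0) (x : L) :
    ev p f m x = ev p f m' x := by
  unfold ev
  refine Finset.sum_subset ?_ ?_
  · intro i hi
    rw [Finset.mem_range] at hi ⊢
    omega
  · intro i _ hi
    rw [Finset.mem_range, not_lt] at hi
    rw [hf i (by omega), zero_mul]

/-- composition of additive polynomials -/
lemma ev_comp (f g : ℕ → L) (m r : ℕ) (hf : ∀ i, m < i → f i = 0) (hg : ∀ i, r < i → g i = 0)
    (x : L) : ev p f m (ev p g r x) =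
      ev p (fun j => ∑ q ∈ Finset.HasAntidiagonal.antidiagonal j, f q.1 * (g q.2) ^ (p ^ q.1)) (m + r) x := by
  unfold ev
  have h1 : ∀ i ∈ Finset.range (m + 1),
      f i * (∑ l ∈ Finset.range (r + 1), g l * x ^ (p ^ l)) ^ (p ^ i) =
      ∑ l ∈ Finset.range (r + 1), f i * (g l) ^ (p ^ i) * x ^ (p ^ (i + l)) := by
    intro i _
    rw [sum_pow_char_pow, Finset.mul_sum]
    refine Finset.sum_congr rfl fun l _ => ?_
    rw [mul_pow, ← pow_mul, pow_add, mul_comm (p ^ i) (p ^ l)]
    ring
  rw [Finset.sum_congr rfl h1]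
  have h2 : ∀ j ∈ Finset.range (m + r + 1),
      (∑ q ∈ Finset.HasAntidiagonal.antidiagonal j, f q.1 * (g q.2) ^ (p ^ q.1)) * x ^ (p ^ j) =
      ∑ q ∈ Finset.HasAntidiagonal.antidiagonal j, f q.1 * (g q.2) ^ (p ^ q.1) * x ^ (p ^ (q.1 + q.2)) := by
    intro j _
    rw [Finset.sum_mul]
    refine Finset.sum_congr rfl fun q hq => ?_
    rw [Finset.HasAntidiagonal.mem_antidiagonal.1 hq]
  rw [Finset.sum_congr rfl h2, ← Finset.sum_product', Finset.sum_sigma']
  refine Finset.sum_bij_ne_zero (fun a _ _ => ⟨a.1 + a.2, a⟩) ?_ ?_ ?_ ?_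
  · intro a ha _
    rw [Finset.mem_product, Finset.mem_range, Finset.mem_range] at ha
    rw [Finset.mem_sigma, Finset.mem_range, Finset.HasAntidiagonal.mem_antidiagonal]
    refine ⟨?_, rfl⟩
    show a.1 + a.2 < m + r + 1
    omega
  · intro a _ _ b _ _ hab
    have := congrArg Sigma.snd (Sigma.mk.inj_iff.1 hab |>.1 ▸ hab)
    have h3 := (Sigma.mk.inj_iff.1 hab).2
    exact eq_of_heq h3
  · intro b hb hb0
    rw [Finset.mem_sigma, Finset.mem_range, Finset.HasAntidiagonal.mem_antidiagonal] at hb
    obtain ⟨j, q⟩ := b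
    simp only at hb hb0
    refine ⟨q, ?_, ?_, ?_⟩
    · rw [Finset.mem_product, Finset.mem_range, Finset.mem_range]
      constructor
      · by_contra hcon
        exact hb0 (by rw [hf q.1 (by omega)]; ring)
      · by_contra hcon
        refine hb0 ?_
        rw [hg q.2 (by omega), zero_pow (pow_ne_zero _ (Fact.out : p.Prime).ne_zero)]
        ring
    · exact hb0
    · obtain ⟨_, rfl⟩ := hb
      rfl
  · intro a _ _
    rfl

variable [Algebra (ZMod p) L]

/-- The polynomials in `φ` are additive polynomials with the expected lower bounds. -/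
lemma aeval_ev (hu : IsOrd u) (g : ℕ → L) (r : ℕ) (c : ℝ) (hg : ∀ i, r < i → g i = 0)
    (hc : ∀ i, GE u (g i) (-((p : ℝ) ^ i - 1) * c)) (b : (ZMod p)[X]) :
    ∃ (m : ℕ) (f : ℕ → L), (∀ x, (aeval (evL p g r) b) x = ev p f m x) ∧
      f 0 = aeval (g 0) b ∧ (∀ i, m < i → f i = 0) ∧
      ∀ i, GE u (f i) (-((p : ℝ) ^ i - 1) * c) := by
  induction b using Polynomial.induction_on' with
  | add b1 b2 h1 h2 =>
    obtain ⟨m1, f1, e1, z1, v1, w1⟩ := h1
    obtain ⟨m2, f2, e2, z2, v2, w2⟩ := h2
    refine ⟨max m1 m2, fun i => f1 i + f2 i, ?_, ?_, ?_, ?_⟩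
    · intro x
      rw [map_add, LinearMap.add_apply, e1, e2, ev_eq_of_le p f1 (le_max_left m1 m2) v1,
        ev_eq_of_le p f2 (le_max_right m1 m2) v2]
      unfold ev
      rw [← Finset.sum_add_distrib]
      exact Finset.sum_congr rfl fun i _ => by ring
    · show f1 0 + f2 0 = _
      rw [z1, z2, map_add]
    · intro i hi
      show f1 i + f2 i = 0
      rw [v1 i (lt_of_le_of_lt (le_max_left _ _) hi), v2 i (lt_of_le_of_lt (le_max_right _ _) hi),
        add_zero]
    · intro i
      exact (w1 i).add hu (w2 i)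
  | monomial n a =>
    induction n with
    | zero =>
      refine ⟨0, fun i => if i = 0 then algebraMap (ZMod p) L a else 0, ?_, ?_, ?_, ?_⟩
      · intro x
        rw [monomial_zero_left, aeval_C]
        unfold ev
        simp [Algebra.smul_def]
      · rw [monomial_zero_left, aeval_C]
        simp
      · intro i hi
        have : i ≠ 0 := by omega
        simp [this]
      · intro i
        by_cases hi : i = 0
        · subst hi
          simp only [if_true, pow_zero, sub_self, neg_zero, zero_mul]
          by_cases ha : a = 0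
          · left; simp [ha]
          · right
            rw [hu.algZMod p ha]
            simp
        · left
          simp [hi]
    | succ n ih =>
      obtain ⟨m, f, e, z, v, w⟩ := ih
      refine ⟨m + r, fun j => ∑ q ∈ Finset.HasAntidiagonal.antidiagonal j, f q.1 * (g q.2) ^ (p ^ q.1), ?_, ?_,
        ?_, ?_⟩
      · intro x
        have h1 : (monomial (n + 1) a : (ZMod p)[X]) = monomial n a * X := by
          rw [monomial_mul_X]
        rw [h1, map_mul, aeval_X, Module.End.mul_apply, e, evL_apply, ev_comp p f g m r v hg]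
      · have h1 : (monomial (n + 1) a : (ZMod p)[X]) = monomial n a * X := by
          rw [monomial_mul_X]
        rw [h1, map_mul, aeval_X, ← z]
        simp
      · intro j hj
        refine Finset.sum_eq_zero fun q hq => ?_
        rw [Finset.HasAntidiagonal.mem_antidiagonal] at hq
        by_cases hq1 : m < q.1
        · rw [v _ hq1, zero_mul]
        · rw [hg q.2 (by omega), zero_pow (pow_ne_zero _ (Fact.out : p.Prime).ne_zero), mul_zero]
      · intro j
        refine GE.sum hu _ _ fun q hq => ?_
        rw [Finset.HasAntidiagonal.mem_antidiagonal] at hq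
        have h1 := (w q.1).mul hu ((hc q.2).pow hu
          (pow_ne_zero q.1 (Fact.out : p.Prime).ne_zero))
        refine h1.mono (le_of_eq ?_)
        rw [← hq]
        push_cast
        ring

end

theorem lemSPEC : S_SPEC.{w} := by
  classical
  intro p _ L _ _ _ u hu g r c hr hLoc hg0 M _ hM
  have hp : p.Prime := Fact.out
  have hp1 : (1 : ℝ) < p := by exact_mod_cast hp.one_lt
  set U := levG p hu M c with hUdef
  have hUM : U ≤ M := fun x hx => hx.1
  have : FiniteDimensional (ZMod p) U := Submodule.finiteDimensional_of_le hUM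
  -- truncated coefficients
  set g' : ℕ → L := fun i => if i ≤ r then g i else 0 with hg'
  have hg'0 : g' 0 = g 0 := by simp [hg']
  have hevg : ∀ x, ev p g' r x = ev p g r x := by
    intro x
    unfold ev
    refine Finset.sum_congr rfl fun i hi => ?_
    rw [Finset.mem_range] at hi
    have : i ≤ r := by omega
    simp [hg', this]
  have hgz : ∀ i, r < i → g' i = 0 := by
    intro i hi
    have : ¬ i ≤ r := by omega
    simp [hg', this]
  have hgc : ∀ i, GE u (g' i) (-((p : ℝ) ^ i - 1) * c) := by
    intro i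
    by_cases hi : i ≤ r
    · by_cases hi0 : i = 0
      · subst hi0
        rw [hg'0]
        refine hg0.mono ?_
        simp
      · have h1 := hLoc.ge i (by omega) hi
        have h2 : g' i = g i := by simp [hg', hi]
        rw [h2]
        exact h1
    · left
      exact hgz i (by omega)
  -- stability of `U`
  have hU : ∀ x ∈ U, evL p g' r x ∈ U := by
    intro x hx
    have hx' : x ∈ M ∧ (x = 0 ∨ c < (u x : ℝ)) := hx
    show evL p g' r x ∈ M ∧ (evL p g' r x = 0 ∨ c < (u (evL p g' r x) : ℝ))
    refine ⟨?_, ?_⟩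
    · rw [evL_apply, hevg]
      exact hM x hx'.1
    · rcases hx'.2 with h0 | h0
      · left
        rw [h0, map_zero]
      · have hx0 : x ∈ U := hx
        rw [evL_apply]
        have h1 : GE u (ev p g' r x) (u x) := by
          unfold ev
          refine GE.sum hu _ _ fun i _ => ?_
          have h2 := (hgc i).mul hu ((GE.self (u := u) x).pow hu
            (pow_ne_zero i hp.ne_zero))
          refine h2.mono ?_
          push_cast
          have h3 : (1 : ℝ) ≤ (p : ℝ) ^ i := one_le_pow₀ hp1.le
          nlinarith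
        rcases h1 with h1 | h1
        · left; exact h1
        · right; exact lt_of_lt_of_le h0 h1
  set ψ := (evL p g' r).restrict hU with hψ
  set a := ψ.charpoly with ha
  refine ⟨a, LinearMap.charpoly_monic ψ, LinearMap.charpoly_natDegree ψ, ?_⟩
  -- Cayley-Hamilton
  have hCH : ∀ x ∈ U, (aeval (evL p g' r) a) x = 0 := by
    have h1 : ∀ (b : (ZMod p)[X]) (x : U), ((aeval ψ b) x : L) = (aeval (evL p g' r) b) x := by
      intro b
      induction b using Polynomial.induction_on' with
      | add b1 b2 h1 h2 =>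
        intro x
        rw [map_add, map_add, LinearMap.add_apply, LinearMap.add_apply, Submodule.coe_add, h1, h2]
      | monomial n a =>
        induction n with
        | zero =>
          intro x
          rw [monomial_zero_left, aeval_C, aeval_C]
          rfl
        | succ n ih =>
          intro x
          have h1 : (monomial (n + 1) a : (ZMod p)[X]) = monomial n a * X := by
            rw [monomial_mul_X]
          rw [h1, map_mul, map_mul, aeval_X, aeval_X, Module.End.mul_apply, Module.End.mul_apply,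
            ih]
          rfl
    intro x hx
    have h2 := h1 a ⟨x, hx⟩
    rw [ha, LinearMap.aeval_self_charpoly] at h2
    rw [← ha] at h2
    exact h2.symm
  obtain ⟨m, f, he, hf0, hfz, hfc⟩ := aeval_ev p hu g' r c hgz hgc a
  -- the gap
  set δ : ℝ := 1 / ((p : ℝ) ^ r - 1) with hδ
  have hpr : (0 : ℝ) < (p : ℝ) ^ r - 1 := by
    have : (1 : ℝ) < (p : ℝ) ^ r := one_lt_pow₀ hp1 (by omega)
    linarith
  have hδ0 : 0 ≤ δ := by positivity
  have hgap : ∀ y : L, y ≠ 0 → c < (u y : ℝ) → c + δ ≤ (u y : ℝ) := by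
    intro y _ hy
    obtain ⟨i, hi1, hir, hgi, hi⟩ := hLoc.eq
    have h1 : (1 : ℝ) < (p : ℝ) ^ i := one_lt_pow₀ hp1 (by omega)
    have h2 : (p : ℝ) ^ i ≤ (p : ℝ) ^ r := pow_le_pow_right₀ hp1.le hir
    have h3 : ((((p : ℤ) ^ i - 1) * u y + u (g i) : ℤ) : ℝ) = ((p : ℝ) ^ i - 1) * (u y - c) := by
      push_cast
      rw [hi]
      ring
    have h4 : (0 : ℝ) < ((((p : ℤ) ^ i - 1) * u y + u (g i) : ℤ) : ℝ) := by
      rw [h3]
      exact mul_pos (by linarith) (by linarith)
    have h5 : (1 : ℤ) ≤ ((p : ℤ) ^ i - 1) * u y + u (g i) := by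
      have : (0 : ℤ) < ((p : ℤ) ^ i - 1) * u y + u (g i) := by exact_mod_cast h4
      omega
    have h6 : (1 : ℝ) ≤ ((p : ℝ) ^ i - 1) * (u y - c) := by
      rw [← h3]
      exact_mod_cast h5
    have h7 : (1 : ℝ) ≤ ((p : ℝ) ^ r - 1) * (u y - c) :=
      h6.trans (mul_le_mul_of_nonneg_right (by linarith) (by linarith))
    have h8 : δ ≤ u y - c := by
      rw [hδ, div_le_iff₀ hpr]
      linarith
    linarith
  -- the ordinary polynomial
  set F : L[X] := ∑ i ∈ Finset.range (m + 1), C (f i) * X ^ (p ^ i - 1) with hF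
  have hFev : ∀ y : L, F.eval y * y = ev p f m y := by
    intro y
    rw [hF, eval_finsetSum, Finset.sum_mul]
    unfold ev
    refine Finset.sum_congr rfl fun i _ => ?_
    rw [eval_mul, eval_C, eval_pow, eval_X, mul_assoc, ← pow_succ,
      Nat.sub_add_cancel (Nat.one_le_pow _ _ hp.pos)]
  have hFc : ∀ j : ℕ, GE u (F.coeff j) (0 - j * c) := by
    intro j
    rw [hF, finsetSum_coeff]
    refine GE.sum hu _ _ fun i _ => ?_
    rw [coeff_C_mul, coeff_X_pow]
    by_cases hj : j = p ^ i - 1
    · rw [if_pos hj, mul_one]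
      refine (hfc i).mono (le_of_eq ?_)
      rw [hj, Nat.cast_sub (Nat.one_le_pow _ _ hp.pos)]
      push_cast
      ring
    · rw [if_neg hj, mul_zero]
      exact Or.inl rfl
  have hF0 : F.coeff 0 = f 0 := by
    rw [hF, finsetSum_coeff, Finset.sum_eq_single 0]
    · simp
    · intro i _ hi
      rw [coeff_C_mul, coeff_X_pow, if_neg, mul_zero]
      have : 1 < p ^ i := Nat.one_lt_pow hi hp.one_lt
      omega
    · intro h
      exact absurd (Finset.mem_range.2 (by omega)) h
  -- the roots
  have : Finite U := Module.finite_of_finite (ZMod p)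
  have : Fintype U := Fintype.ofFinite U
  set R : Finset L := (Finset.univ.image (fun x : U => (x : L))).erase 0 with hR
  have hRcard : R.card = p ^ (Module.finrank (ZMod p) U) - 1 := by
    rw [hR, Finset.card_erase_of_mem]
    · rw [Finset.card_image_of_injective _ Subtype.val_injective, Finset.card_univ,
        Module.card_eq_pow_finrank (K := ZMod p) (V := U), ZMod.card]
    · rw [Finset.mem_image]
      exact ⟨0, Finset.mem_univ _, rfl⟩
  have hfin := ge_roots hu hδ0 (p ^ (Module.finrank (ZMod p) U) - 1) R hRcard F 0 hFc (by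
    intro y hy
    rw [hR, Finset.mem_erase, Finset.mem_image] at hy
    obtain ⟨hy0, ⟨y', _, rfl⟩⟩ := hy
    have hy1 : (y' : L) ∈ M ∧ ((y' : L) = 0 ∨ c < (u (y' : L) : ℝ)) := y'.2
    refine ⟨Or.inr (hgap _ hy0 (hy1.2.resolve_left hy0)), ?_⟩
    have h1 := hFev (y' : L)
    rw [← he, hCH _ y'.2] at h1
    exact (mul_eq_zero.1 h1).resolve_right hy0)
  rw [hF0, hf0, hg'0] at hfin
  refine hfin.mono (le_of_eq ?_)
  rw [hδ, Nat.cast_sub (Nat.one_le_pow _ _ hp.pos)]
  push_cast
  ring

end Pool.Agent.TH541.DMSpec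

/-- the special places bound -/
theorem Pool.Agent.TH923.DM.lemSPEC.{w} : Pool.Agent.TH923.DM.S_SPEC.{w} :=
  Pool.Agent.TH541.DMSpec.lemSPEC
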